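import Mathlib
import Pool.Agent.Y517.NT.Sys

/-!
# Project NT, piece ONE: derivations and null sets of the line
(`bump`, `compSupp`, `prim` after `Pool/Agent/Y925/SY/Planar.lean`)
-/

set_option autoImplicit false

open Set Filter Topology MeasureTheory Metric
open scoped Manifold ContDiff

noncomputable section

namespace Pool.Agent.Y246.NT

open Pool.Agent.Y517.NT

theorem bump {E : Type} [NormedAddCommGroup E] [NormedSpace ℝ E] [FiniteDimensional ℝ E]
    [MeasurableSpace E] [BorelSpace E] (μ : Measure E) [IsFiniteMeasureOnCompacts μ]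
    [μ.OuterRegular] (K : Set E) (hK : IsCompact K) (δ : ℝ) (hδ : μ K < ENNReal.ofReal δ) :
    ∃ u : E → ℝ, ContDiff ℝ ∞ u ∧ (∀ x, 0 ≤ u x) ∧ (∀ x, u x ≤ 1) ∧ (∀ x ∈ K, u x = 1) ∧
      (∃ R : ℝ, 0 < R ∧ ∀ x, R ≤ ‖x‖ → u x = 0) ∧ ∫ x, u x ∂μ ≤ δ := by
  have hδ0 : 0 < δ := by
    by_contra h
    rw [ENNReal.ofReal_of_nonpos (not_lt.1 h)] at hδ
    exact absurd hδ not_lt_zero
  obtain ⟨W, hKW, hWo, hWδ⟩ := K.exists_isOpen_lt_of_lt _ hδ
  obtain ⟨R, hR, hKR⟩ := hK.isBounded.subset_ball_lt 0 (0 : E)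
  have hopen : IsOpen (W ∩ ball (0 : E) R) := hWo.inter isOpen_ball
  obtain ⟨f, hf0, hf1, hf⟩ := exists_contMDiffMap_zero_one_of_isClosed 𝓘(ℝ, E) (n := (⊤ : ℕ∞))
    (s := (W ∩ ball (0 : E) R)ᶜ) (t := K) hopen.isClosed_compl hK.isClosed
    (by
      rw [Set.disjoint_left]
      intro x hx hxK
      exact hx ⟨hKW hxK, hKR hxK⟩)
  refine ⟨f, f.contMDiff.contDiff, fun x => (hf x).1, fun x => (hf x).2, fun x hx => hf1 hx,
    ⟨R, hR, fun x hx => hf0 ?_⟩, ?_⟩
  · rintro ⟨-, h⟩
    rw [mem_ball_zero_iff] at h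
    linarith
  · have hfin : μ (W ∩ ball (0 : E) R) ≤ ENNReal.ofReal δ :=
      (measure_mono inter_subset_left).trans hWδ.le
    have hfin2 : μ (W ∩ ball (0 : E) R) ≠ ⊤ := (hfin.trans_lt ENNReal.ofReal_lt_top).ne
    have h1 : ∫ x, f x ∂μ ≤ ∫ x, (W ∩ ball (0 : E) R).indicator (fun _ => (1 : ℝ)) x ∂μ := by
      apply integral_mono_of_nonneg
      · exact Eventually.of_forall fun x => (hf x).1
      · rw [integrable_indicator_iff hopen.measurableSet]
        exact integrableOn_const hfin2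
      · refine Eventually.of_forall fun x => ?_
        by_cases hx : x ∈ W ∩ ball (0 : E) R
        · show f x ≤ (W ∩ ball (0 : E) R).indicator (fun _ => (1 : ℝ)) x
          rw [indicator_of_mem hx]
          exact (hf x).2
        · show f x ≤ (W ∩ ball (0 : E) R).indicator (fun _ => (1 : ℝ)) x
          rw [indicator_of_notMem hx, hf0 hx]
          exact le_refl _
    refine h1.trans ?_
    rw [integral_indicator hopen.measurableSet, setIntegral_const, smul_eq_mul, mul_one]
    exact ENNReal.toReal_le_of_le_ofReal hδ0.le hfin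

theorem compSupp {E : Type} [NormedAddCommGroup E] [NormedSpace ℝ E] [FiniteDimensional ℝ E]
    (u : E → ℝ) (R : ℝ) (hR : ∀ x, R ≤ ‖x‖ → u x = 0) : HasCompactSupport u := by
  have : ProperSpace E := FiniteDimensional.proper_real E
  refine HasCompactSupport.of_support_subset_isCompact (isCompact_closedBall (0 : E) R) ?_
  intro x hx
  rw [mem_closedBall_zero_iff]
  by_contra h
  exact hx (hR x (not_le.1 h).le)

theorem prim (w : ℝ → ℝ) (hw : ContDiff ℝ ∞ w) (h0 : ∀ x, 0 ≤ w x) (R : ℝ)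
    (hR : ∀ x : ℝ, R ≤ ‖x‖ → w x = 0) (ε : ℝ) (hi : ∫ x, w x ≤ ε) :
    ∃ P : ℝ → ℝ, ContDiff ℝ ∞ P ∧ (∀ x, |P x| ≤ ε) ∧ ∀ x, HasDerivAt P (w x) x := by
  have hd : ∀ x, HasDerivAt (fun x => ∫ t in (0 : ℝ)..x, w t) (w x) x := fun x =>
    (hw.continuous.integral_hasStrictDerivAt 0 x).hasDerivAt
  have hde : deriv (fun x => ∫ t in (0 : ℝ)..x, w t) = w := funext fun x => (hd x).deriv
  refine ⟨fun x => ∫ t in (0 : ℝ)..x, w t, ?_, ?_, fun x => hd x⟩
  · rw [contDiff_infty_iff_deriv, hde]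
    exact ⟨fun x => (hd x).differentiableAt, hw⟩
  · intro x
    have hint : Integrable w := hw.continuous.integrable_of_hasCompactSupport (compSupp w R hR)
    have h1 := intervalIntegral.norm_integral_le_integral_norm_uIoc (f := w) (a := 0) (b := x)
      (μ := volume)
    have h2 : ∫ t in uIoc (0 : ℝ) x, ‖w t‖ ≤ ∫ t, ‖w t‖ :=
      setIntegral_le_integral hint.norm (Eventually.of_forall fun t => norm_nonneg _)
    have h3 : ∫ t, ‖w t‖ = ∫ t, w t := by
      congr 1
      ext t
      exact Real.norm_of_nonneg (h0 t)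
    rw [Real.norm_eq_abs] at h1
    linarith

/-- a smooth function close to the indicator of a null set, with small primitive -/
theorem approx (lam : Measure ℝ) [IsFiniteMeasure lam] (A : Set ℝ) (hA : MeasurableSet A)
    (hA0 : volume A = 0) (ε : ℝ) (hε : 0 < ε) :
    ∃ P u : ℝ → ℝ, ContDiff ℝ ∞ P ∧ (∀ x, |P x| ≤ ε) ∧ (∀ x, HasDerivAt P (u x) x) ∧
      Continuous u ∧ (∀ x, 0 ≤ u x) ∧ (∀ x, u x ≤ 1) ∧
      ∫ x, |A.indicator (fun _ => (1 : ℝ)) x - u x| ∂lam ≤ 2 * ε := by
  obtain ⟨B, hBA, hB, hBε⟩ := hA.exists_isCompact_lt_add (μ := lam) (measure_ne_top lam A)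
    (ε := ENNReal.ofReal ε) (by simpa using hε)
  have hB0 : volume B = 0 := measure_mono_null hBA hA0
  have hBm : MeasurableSet B := hB.measurableSet
  have hfc : IsFiniteMeasureOnCompacts ((volume : Measure ℝ) + lam) := ⟨fun C hC => by
    rw [Measure.add_apply]
    exact ENNReal.add_lt_top.2 ⟨hC.measure_lt_top, measure_lt_top _ _⟩⟩
  have hlf : IsLocallyFiniteMeasure ((volume : Measure ℝ) + lam) :=
    isLocallyFiniteMeasure_of_isFiniteMeasureOnCompacts
  obtain ⟨u, hu, hu0, hu1, huB, ⟨R, hR, huR⟩, hui⟩ := bump (volume + lam) B hB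
    (lam.real B + ε) (by
      rw [Measure.add_apply, hB0, zero_add, ENNReal.ofReal_add measureReal_nonneg hε.le,
        ofReal_measureReal]
      exact ENNReal.lt_add_right (measure_ne_top _ _) (by simpa using hε))
  have hcs := compSupp u R huR
  have i1 : Integrable u volume := hu.continuous.integrable_of_hasCompactSupport hcs
  have i2 : Integrable u lam := hu.continuous.integrable_of_hasCompactSupport hcs
  rw [integral_add_measure i1 i2] at hui
  have hv0 : 0 ≤ ∫ x, u x := integral_nonneg hu0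
  have iB : Integrable (B.indicator (fun _ => (1 : ℝ))) lam :=
    (integrable_indicator_iff hBm).2 (integrableOn_const (measure_ne_top _ _))
  have iA : Integrable (A.indicator (fun _ => (1 : ℝ))) lam :=
    (integrable_indicator_iff hA).2 (integrableOn_const (measure_ne_top _ _))
  have eB : ∫ x, B.indicator (fun _ => (1 : ℝ)) x ∂lam = lam.real B := by
    rw [integral_indicator hBm, setIntegral_const, smul_eq_mul, mul_one]
  have eA : ∫ x, A.indicator (fun _ => (1 : ℝ)) x ∂lam = lam.real A := by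
    rw [integral_indicator hA, setIntegral_const, smul_eq_mul, mul_one]
  have hBu : ∀ x, B.indicator (fun _ => (1 : ℝ)) x ≤ u x := by
    intro x
    by_cases hx : x ∈ B
    · rw [indicator_of_mem hx, huB x hx]
    · rw [indicator_of_notMem hx]; exact hu0 x
  have hBA' : ∀ x, B.indicator (fun _ => (1 : ℝ)) x ≤ A.indicator (fun _ => (1 : ℝ)) x :=
    fun x => indicator_le_indicator_of_subset hBA (fun _ => zero_le_one) x
  have h1 : lam.real B ≤ ∫ x, u x ∂lam := by
    rw [← eB]
    exact integral_mono iB i2 hBu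
  have hAB : lam.real A ≤ lam.real B + ε := by
    have h := hBε.le
    rw [← ofReal_measureReal (μ := lam) (s := A), ← ofReal_measureReal (μ := lam) (s := B),
      ← ENNReal.ofReal_add measureReal_nonneg hε.le] at h
    exact (ENNReal.ofReal_le_ofReal_iff (add_nonneg measureReal_nonneg hε.le)).1 h
  obtain ⟨P, hP, hPε, hPd⟩ := prim u hu hu0 R huR ε (by linarith)
  refine ⟨P, u, hP, hPε, hPd, hu.continuous, hu0, hu1, ?_⟩
  have h2 : ∫ x, |A.indicator (fun _ => (1 : ℝ)) x - u x| ∂lam ≤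
      ∫ x, ((A.indicator (fun _ => (1 : ℝ)) x - B.indicator (fun _ => (1 : ℝ)) x) +
        (u x - B.indicator (fun _ => (1 : ℝ)) x)) ∂lam := by
    apply integral_mono ((iA.sub i2).abs) ((iA.sub iB).add (i2.sub iB))
    intro x
    have a1 := hBu x
    have a2 := hBA' x
    show |A.indicator (fun _ => (1 : ℝ)) x - u x| ≤
      (A.indicator (fun _ => (1 : ℝ)) x - B.indicator (fun _ => (1 : ℝ)) x) +
        (u x - B.indicator (fun _ => (1 : ℝ)) x)
    rw [abs_le]
    constructor <;> linarith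
  have h3 : ∫ x, ((A.indicator (fun _ => (1 : ℝ)) x - B.indicator (fun _ => (1 : ℝ)) x) +
        (u x - B.indicator (fun _ => (1 : ℝ)) x)) ∂lam =
      (lam.real A - lam.real B) + ((∫ x, u x ∂lam) - lam.real B) := by
    have k1 : ∫ x, ((A.indicator (fun _ => (1 : ℝ)) x - B.indicator (fun _ => (1 : ℝ)) x) +
        (u x - B.indicator (fun _ => (1 : ℝ)) x)) ∂lam =
        (∫ x, (A.indicator (fun _ => (1 : ℝ)) x - B.indicator (fun _ => (1 : ℝ)) x) ∂lam) +
        ∫ x, (u x - B.indicator (fun _ => (1 : ℝ)) x) ∂lam := integral_add (iA.sub iB) (i2.sub iB)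
    rw [k1, integral_sub iA iB, integral_sub i2 iB, eA, eB]
  linarith

section

variable {X K : Type} [TopologicalSpace X] [TopologicalSpace K]

theorem mulPhi (s : Sys X K) (P : ℝ → ℝ) (hP : ContDiff ℝ ∞ P) (u : ℝ → ℝ)
    (hd : ∀ x, HasDerivAt P (u x) x) (χ g : X → ℝ) (hχ : χ ∈ s.S) (hg : g ∈ s.S) :
    (fun x => χ x * P (g x)) ∈ s.S ∧
    (∀ z, s.D (fun x => χ x * P (g x)) z =
      P (g (s.p z)) * s.D χ z + χ (s.p z) * u (g (s.p z)) * s.D g z) ∧
    (∀ z, s.D' (fun x => χ x * P (g x)) z =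
      P (g (s.p z)) * s.D' χ z + χ (s.p z) * u (g (s.p z)) * s.D' g z) := by
  have hF : ContDiff ℝ ∞ (fun q : ℝ × ℝ => q.1 * P q.2) := contDiff_fst.mul (hP.comp contDiff_snd)
  have hfd : ∀ a b v w : ℝ, fderiv ℝ (fun q : ℝ × ℝ => q.1 * P q.2) (a, b) (v, w) =
      P b * v + a * u b * w := by
    intro a b v w
    have h1 : HasFDerivAt (fun q : ℝ × ℝ => q.1) (ContinuousLinearMap.fst ℝ ℝ ℝ) (a, b) :=
      hasFDerivAt_fst
    have h2 : HasFDerivAt (fun q : ℝ × ℝ => P q.2) (u b • ContinuousLinearMap.snd ℝ ℝ ℝ) (a, b) :=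
      (hd b).comp_hasFDerivAt (a, b) (f := fun q : ℝ × ℝ => q.2) hasFDerivAt_snd
    have h3 : HasFDerivAt (fun q : ℝ × ℝ => q.1 * P q.2)
        (a • u b • ContinuousLinearMap.snd ℝ ℝ ℝ + P b • ContinuousLinearMap.fst ℝ ℝ ℝ) (a, b) :=
      h1.mul h2
    rw [HasFDerivAt.fderiv h3]
    simp
    ring
  refine ⟨s.comp _ hF χ hχ g hg, ?_, ?_⟩
  · intro z
    rw [s.D_comp _ hF χ hχ g hg z, hfd]
  · intro z
    rw [s.D'_comp _ hF χ hχ g hg z, hfd]

theorem br_mulPhi (s : Sys X K) (P : ℝ → ℝ) (hP : ContDiff ℝ ∞ P) (u : ℝ → ℝ)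
    (hd : ∀ x, HasDerivAt P (u x) x) (χ g h : X → ℝ) (hχ : χ ∈ s.S) (hg : g ∈ s.S) (z : K) :
    s.br (fun x => χ x * P (g x)) h z =
      P (g (s.p z)) * s.br χ h z + u (g (s.p z)) * (χ (s.p z) * s.br g h z) := by
  obtain ⟨-, h1, h2⟩ := mulPhi s P hP u hd χ g hχ hg
  unfold Sys.br
  rw [h1, h2]
  ring

theorem br_cont (s : Sys X K) (f g : X → ℝ) (hf : f ∈ s.S) (hg : g ∈ s.S) :
    Continuous (s.br f g) := by
  unfold Sys.br
  exact ((s.D_cont f hf).mul (s.D'_cont g hg)).sub ((s.D'_cont f hf).mul (s.D_cont g hg))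

theorem cont_bound [CompactSpace K] (f : K → ℝ) (hf : Continuous f) :
    ∃ C : ℝ, 0 ≤ C ∧ ∀ z, |f z| ≤ C := by
  obtain ⟨C, hC⟩ := isCompact_univ.exists_bound_of_continuousOn (f := f) hf.continuousOn
  refine ⟨max C 0, le_max_right _ _, fun z => ?_⟩
  exact (hC z (mem_univ z)).trans (le_max_left _ _)

theorem t_ONE : S_ONE := by
  intro X K _ _ _ _ _ s μ _ hCl A hA hA0 χ hχ g hg h hh
  have hgp : Continuous fun z => g (s.p z) := (s.S_cont g hg).comp s.p_cont
  have hχp : Continuous fun z => χ (s.p z) := (s.S_cont χ hχ).comp s.p_cont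
  set ψ : K → ℝ := fun z => χ (s.p z) * s.br g h z with hψ
  have hψc : Continuous ψ := hχp.mul (br_cont s g h hg hh)
  have hbc : Continuous (s.br χ h) := br_cont s χ h hχ hh
  obtain ⟨C1, hC1, hb1⟩ := cont_bound _ hbc
  obtain ⟨C2, hC2, hb2⟩ := cont_bound _ hψc
  set lam : Measure ℝ := Measure.map (fun z => g (s.p z)) μ with hlam
  have : IsFiniteMeasure lam := Measure.isFiniteMeasure_map μ _
  have hmA : MeasurableSet {z | g (s.p z) ∈ A} := hgp.measurable hA
  -- the value
  set I : ℝ := ∫ z in {z | g (s.p z) ∈ A}, ψ z ∂μ with hI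
  have hIe : I = ∫ z, A.indicator (fun _ => (1 : ℝ)) (g (s.p z)) * ψ z ∂μ := by
    rw [hI, ← integral_indicator hmA]
    congr 1
    ext z
    by_cases hz : g (s.p z) ∈ A
    · rw [indicator_of_mem (show z ∈ {z | g (s.p z) ∈ A} from hz), indicator_of_mem hz, one_mul]
    · rw [indicator_of_notMem (show z ∉ {z | g (s.p z) ∈ A} from hz), indicator_of_notMem hz,
        zero_mul]
  have key : ∀ ε : ℝ, 0 < ε → |I| ≤ ε * (C1 * μ.real univ + 2 * C2) := by
    intro ε hε
    obtain ⟨P, u, hP, hPε, hPd, huc, hu0, hu1, hui⟩ := approx lam A hA hA0 ε hε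
    have hmem := (mulPhi s P hP u hPd χ g hχ hg).1
    have h0 := hCl _ hmem h hh
    have hbr : ∀ z, s.br (fun x => χ x * P (g x)) h z =
      P (g (s.p z)) * s.br χ h z + u (g (s.p z)) * ψ z := fun z =>
        br_mulPhi s P hP u hPd χ g h hχ hg z
    simp_rw [hbr] at h0
    have c1 : Continuous fun z => P (g (s.p z)) * s.br χ h z :=
      (hP.continuous.comp hgp).mul hbc
    have c2 : Continuous fun z => u (g (s.p z)) * ψ z := (huc.comp hgp).mul hψc
    have integ : ∀ f : K → ℝ, Continuous f → Integrable f μ := by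
      intro f hf
      obtain ⟨C, -, hC⟩ := cont_bound f hf
      exact Integrable.of_bound hf.measurable.aestronglyMeasurable C
        (Eventually.of_forall fun z => hC z)
    rw [integral_add (integ _ c1) (integ _ c2)] at h0
    have e1 : |∫ z, P (g (s.p z)) * s.br χ h z ∂μ| ≤ ε * C1 * μ.real univ := by
      have := norm_integral_le_of_norm_le_const (μ := μ) (C := ε * C1)
        (f := fun z => P (g (s.p z)) * s.br χ h z) (Eventually.of_forall fun z => by
          rw [Real.norm_eq_abs, abs_mul]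
          exact mul_le_mul (hPε _) (hb1 z) (abs_nonneg _) hε.le)
      simpa using this
    have iind : Integrable (fun z => A.indicator (fun _ => (1 : ℝ)) (g (s.p z)) * ψ z) μ := by
      refine Integrable.of_bound ?_ C2 (Eventually.of_forall fun z => ?_)
      · exact (((measurable_const.indicator hA).comp hgp.measurable).mul
          hψc.measurable).aestronglyMeasurable
      · rw [Real.norm_eq_abs, abs_mul]
        have : |A.indicator (fun _ => (1 : ℝ)) (g (s.p z))| ≤ 1 := by
          by_cases hz : g (s.p z) ∈ A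
          · rw [indicator_of_mem hz]; simp
          · rw [indicator_of_notMem hz]; simp
        calc |A.indicator (fun _ => (1 : ℝ)) (g (s.p z))| * |ψ z| ≤ 1 * C2 :=
              mul_le_mul this (hb2 z) (abs_nonneg _) zero_le_one
          _ = C2 := one_mul _
    have e2 : |I - ∫ z, u (g (s.p z)) * ψ z ∂μ| ≤ C2 * (2 * ε) := by
      rw [hIe, ← integral_sub iind (integ _ c2)]
      have hmeas : AEStronglyMeasurable (fun x => |A.indicator (fun _ => (1 : ℝ)) x - u x|) lam :=
        (((measurable_const.indicator hA).sub huc.measurable).abs).aestronglyMeasurable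
      have hmap : ∫ x, |A.indicator (fun _ => (1 : ℝ)) x - u x| ∂lam =
          ∫ z, |A.indicator (fun _ => (1 : ℝ)) (g (s.p z)) - u (g (s.p z))| ∂μ := by
        rw [hlam] at hmeas ⊢
        rw [integral_map hgp.measurable.aemeasurable hmeas]
      have hib : Integrable (fun z => |A.indicator (fun _ => (1 : ℝ)) (g (s.p z)) -
          u (g (s.p z))|) μ := by
        refine Integrable.of_bound ?_ 1 (Eventually.of_forall fun z => ?_)
        · exact ((((measurable_const.indicator hA).sub huc.measurable).abs).comp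
            hgp.measurable).aestronglyMeasurable
        · rw [Real.norm_eq_abs, abs_abs]
          have b1 := hu0 (g (s.p z))
          have b2 := hu1 (g (s.p z))
          by_cases hz : g (s.p z) ∈ A
          · rw [indicator_of_mem hz, abs_le]; constructor <;> linarith
          · rw [indicator_of_notMem hz, abs_le]; constructor <;> linarith
      calc |∫ z, (A.indicator (fun _ => (1 : ℝ)) (g (s.p z)) * ψ z - u (g (s.p z)) * ψ z) ∂μ|
          ≤ ∫ z, |A.indicator (fun _ => (1 : ℝ)) (g (s.p z)) * ψ z - u (g (s.p z)) * ψ z| ∂μ :=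
            abs_integral_le_integral_abs
        _ ≤ ∫ z, |A.indicator (fun _ => (1 : ℝ)) (g (s.p z)) - u (g (s.p z))| * C2 ∂μ := by
            apply integral_mono ((iind.sub (integ _ c2)).abs) (hib.mul_const C2)
            intro z
            show |A.indicator (fun _ => (1 : ℝ)) (g (s.p z)) * ψ z - u (g (s.p z)) * ψ z| ≤
              |A.indicator (fun _ => (1 : ℝ)) (g (s.p z)) - u (g (s.p z))| * C2
            rw [← sub_mul, abs_mul]
            exact mul_le_mul_of_nonneg_left (hb2 z) (abs_nonneg _)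
        _ = (∫ x, |A.indicator (fun _ => (1 : ℝ)) x - u x| ∂lam) * C2 := by
            rw [hmap, integral_mul_const]
        _ ≤ (2 * ε) * C2 := mul_le_mul_of_nonneg_right hui hC2
        _ = C2 * (2 * ε) := by ring
    have e3 : I = (I - ∫ z, u (g (s.p z)) * ψ z ∂μ) - ∫ z, P (g (s.p z)) * s.br χ h z ∂μ := by
      linarith
    calc |I| = |(I - ∫ z, u (g (s.p z)) * ψ z ∂μ) - ∫ z, P (g (s.p z)) * s.br χ h z ∂μ| := by
            rw [← e3]
      _ ≤ |I - ∫ z, u (g (s.p z)) * ψ z ∂μ| + |∫ z, P (g (s.p z)) * s.br χ h z ∂μ| :=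
            abs_sub _ _
      _ ≤ C2 * (2 * ε) + ε * C1 * μ.real univ := add_le_add e2 e1
      _ = ε * (C1 * μ.real univ + 2 * C2) := by ring
  have hM : 0 ≤ C1 * μ.real univ + 2 * C2 := by positivity
  have hfin : |I| ≤ 0 := by
    refine le_of_forall_pos_le_add fun δ hδ => ?_
    have h1 := key (δ / (C1 * μ.real univ + 2 * C2 + 1)) (by positivity)
    rw [zero_add]
    refine h1.trans ?_
    rw [div_mul_eq_mul_div, div_le_iff₀ (by positivity)]
    exact mul_le_mul_of_nonneg_left (by linarith) hδ.le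
  exact abs_nonpos_iff.1 hfin

end

end Pool.Agent.Y246.NT
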